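import Mathlib
import Pool.Agent.Run7.h200.SP.Sub

/-!
# Stark's rational conjecture for the abelian extensions inside an extension with an alternating
# group

Stark's rational conjecture for a finite abelian extension `H / F` and for all `S`, `T` (in the form
of the problem, with exterior powers) is, by theorems of Tate and Rubin, the conjecture
`A(ψ, φ)^σ = A(ψ^σ, φ)` of Stark for the characters `ψ` of `Gal(H/F)` with the minimal order of
vanishing; the truth for `ψ` does not depend on `S`, and it does not change if `ψ` is regarded as a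
character of a bigger Galois group. This file is about this form, with `S` the set of the infinite
places; `Stark c σ ψ` is the assertion for `ψ` and `σ`, and `IsDefect c σ ψ d` means
`A(ψ, φ)^σ = d A(ψ^σ, φ)` for all `φ`. The definitions of `Ext`, `G`, `IsChr`, `Pair`, `IsLeading`,
`Stark`, `lin` are in `Pool.Agent.K4H74.SC.Core`, that of `IsDefect` in `Pool.Agent.K4H77.SL.Def`.

Let `L / K` be a Galois extension of number fields whose Galois group is the alternating group `A_n`,
`n ≥ 2`. The theorem of Tate on characters with rational values is used for `L / K` (hypothesis). Let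
`U` be a subgroup of `A_n`, and let `F` be its fixed field. The abelian extensions of `F` which are
contained in `L` are given by the characters of degree one of `Gal(L/F)`; the theorem holds for all
characters `χ` of `Gal(L/F)`. For a partition `P` of `n` into different odd parts with a product
which is not a square let `λ_P` be the character of a subgroup `H_P` of odd order of `Sys.Good`.

(1) `d(χ, σ) = ∏ d(λ_P, σ) ^ (r_P)` with integers `r_P`, the product over the `P` for which `U`
contains an element with the cycle lengths `P`.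

(2) If `U` contains no such element, then Stark's conjecture is true for all characters of
`Gal(L/F)`, so Stark's rational conjecture is true for the abelian extensions of `F` in `L`.

(3) This is so if `U` fixes two of the `n` letters, that is, if `F` contains two zeros of a polynomial
of degree `n` with the splitting field `L`.

(4) Stark's conjecture is true for all the characters of degree one of all the groups `Gal(L/F)`,
`K ⊆ F ⊆ L`, if and only if it is true for the characters `λ_P`.
-/

set_option autoImplicit false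

namespace Pool.Agent.Results.MP_d9bae3_nt.InsideAlternatingExtensions

open Equiv NumberField Pool.Agent.K4H74 Pool.Agent.K4H74.SK Run7.h200.SP

/-- The extension `L / F`, where `F` is the fixed field of the subgroup `U` of `A_n`. -/
noncomputable abbrev above {n : ℕ} {E : Ext} (e : alternatingGroup (Fin n) ≃* G E)
    (U : Subgroup (alternatingGroup (Fin n))) : Ext :=
  sub E (U.map (e : alternatingGroup (Fin n) →* G E))

/-- `U` contains an element with the cycle lengths `P`. -/
def Meets {n : ℕ} (U : Subgroup (alternatingGroup (Fin n))) (P : Finset ℕ) : Prop :=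
  ∃ u ∈ U, HasCycles (u : Perm (Fin n)) P

theorem result (n : ℕ) (hn : 2 ≤ n) :
    ∃ s : Sys n, s.Good ∧ ∀ (E : Ext) (e : alternatingGroup (Fin n) ≃* G E) (c : Pair → ℂ)
      (σ : ℂ ≃+* ℂ), IsLeading c → (∀ χ : G E → ℂ, IsChr χ → RatVal χ → Stark c σ χ) →
      (∀ (U : Subgroup (alternatingGroup (Fin n))) (χ : G (above e U) → ℂ), IsChr χ →
        ∃ r : parts n → ℤ, (∀ P, ¬ Meets U P.1 → r P = 0) ∧
          ∀ (d : ℂˣ) (d' : parts n → ℂˣ), IsDefect c σ χ d →
            (∀ P, IsDefect c σ (s.chr e P).2 (d' P)) → d = ∏ P, d' P ^ r P) ∧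
      (∀ U : Subgroup (alternatingGroup (Fin n)), (∀ P : parts n, ¬ Meets U P.1) →
        ∀ χ : G (above e U) → ℂ, IsChr χ → Stark c σ χ) ∧
      (∀ (U : Subgroup (alternatingGroup (Fin n))) (a b : Fin n), a ≠ b →
        (∀ u ∈ U, (u : Perm (Fin n)) a = a ∧ (u : Perm (Fin n)) b = b) →
        ∀ χ : G (above e U) → ℂ, IsChr χ → Stark c σ χ) ∧
      ((∀ (U : Subgroup (alternatingGroup (Fin n))) (ψ : G (above e U) →* ℂˣ), Stark c σ (lin ψ)) ↔
        ∀ P, Stark c σ (s.chr e P).2) := by
  classical
  obtain ⟨s, h0, hE⟩ := exists_sys n hn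
  refine ⟨s, h0, fun E e c σ hc hR => ?_⟩
  have hval : ∀ (E : Ext) (χ : G E → ℂ), IsChr χ →
      (Stark c σ χ ↔ (inv hc σ).val E.K E.L χ = 1) := fun E χ hχ =>
    ⟨to_val hc σ hχ, of_val hc σ hχ⟩
  have hchr : ∀ P, IsChr (s.chr e P).2 := by
    intro P
    rw [Sys.chr_eq]
    exact isChr_chrOver E e (s.H P) (s.lam P)
  have hD : ∀ P, s.D P ≠ 0 := by
    intro P h
    have h1 := (h0 P).2.2.2.2
    rw [h, zero_pow two_ne_zero] at h1
    have hP := mem_parts.mp P.2
    have hodd : Odd (∏ m ∈ P.1, m) := Finset.prod_induction _ Odd (fun _ _ => Odd.mul) odd_one hP.1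
    have h2 := chi_sq hodd
    have h3 : ((ZMod.χ₄ ((∏ m ∈ P.1, m : ℕ) : ZMod 4) : ℤ) : ℂ) ≠ 0 := by
      intro h4
      have h5 : ZMod.χ₄ ((∏ m ∈ P.1, m : ℕ) : ZMod 4) = 0 := by exact_mod_cast h4
      rw [h5] at h2
      norm_num at h2
    have h4 : ((∏ m ∈ P.1, m : ℕ) : ℂ) ≠ 0 := by exact_mod_cast hodd.pos.ne'
    exact mul_ne_zero h3 h4 h1.symm
  -- the value of the invariant
  have key : ∀ (U : Subgroup (alternatingGroup (Fin n))) (χ : G (above e U) → ℂ), IsChr χ →
      ∃ r : parts n → ℤ, (∀ P, ¬ Meets U P.1 → r P = 0) ∧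
        (inv hc σ).val (above e U).K (above e U).L χ =
          ∏ P, (inv hc σ).val (s.chr e P).1.K (s.chr e P).1.L (s.chr e P).2 ^ r P := by
    intro U χ hχ
    have hI : IsChr (indSub E (U.map (e : alternatingGroup (Fin n) →* G E)) χ) :=
      isChr_indSub E _ hχ
    obtain ⟨r, ψ, ψ', h1, h2, h3, h4, h5, h6, h7, h8⟩ := hE E e _ hI
    refine ⟨r, ?_, ?_⟩
    · intro P hP
      have hP' : ∀ u ∈ U, ¬ HasCycles (u : Perm (Fin n)) P.1 := fun u hu h => hP ⟨u, hu, h⟩
      have hg : HasCycles (s.g P : Perm (Fin n)) P.1 := (h0 P).2.2.1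
      have hg' : HasCycles (s.g' P : Perm (Fin n)) P.1 := by
        obtain ⟨t, -, ht⟩ := (h0 P).2.2.2.1
        rw [ht]
        exact hg.conj t
      have h9 := h5 P
      rw [indSub_zero e U χ hP' hg, indSub_zero e U χ hP' hg', sub_zero] at h9
      have h10 : (r P : ℂ) = 0 := by
        rcases mul_eq_zero.mp h9.symm with h | h
        · exact h
        · exact absurd h (hD P)
      exact_mod_cast h10
    · have h9 := h8 ℂˣ (inv hc σ)
      rw [(hval E ψ h1).mp (hR ψ h1 h3), (hval E ψ' h2).mp (hR ψ' h2 h4), mul_one, one_mul] at h9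
      rw [val_indSub (inv hc σ) E _ hχ]
      exact h9
  have hempty : ∀ U : Subgroup (alternatingGroup (Fin n)), (∀ P : parts n, ¬ Meets U P.1) →
      ∀ χ : G (above e U) → ℂ, IsChr χ → Stark c σ χ := by
    intro U hU χ hχ
    obtain ⟨r, h1, h2⟩ := key U χ hχ
    rw [hval _ χ hχ, h2]
    exact Finset.prod_eq_one fun P _ => by rw [h1 P (hU P), zpow_zero]
  refine ⟨?_, hempty, ?_, ?_, ?_⟩
  · intro U χ hχ
    obtain ⟨r, h1, h2⟩ := key U χ hχ
    refine ⟨r, h1, fun d d' hd hd' => ?_⟩
    rw [(isDefect_iff hc σ hχ).mp hd] at h2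
    rw [h2]
    refine Finset.prod_congr rfl fun P _ => ?_
    rw [(isDefect_iff hc σ (hchr P)).mp (hd' P)]
  · intro U a b hab hfix
    refine hempty U fun P hP => ?_
    obtain ⟨u, hu, h⟩ := hP
    exact not_hasCycles hab (hfix u hu).1 (hfix u hu).2 P.1 h
  · intro hS P
    rw [Sys.chr_eq]
    exact hS (s.H P) (subChr E _ (mapChr e (s.H P) (s.lam P)))
  · intro hS U ψ
    obtain ⟨r, -, h2⟩ := key U (lin ψ) (isChr_lin ψ)
    rw [hval _ _ (isChr_lin ψ), h2]
    refine Finset.prod_eq_one fun P _ => ?_
    rw [(hval _ _ (hchr P)).mp (hS P), one_zpow]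

end Pool.Agent.Results.MP_d9bae3_nt.InsideAlternatingExtensions
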